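import Pool.Agent.H84.S2.TgE
import Pool.Agent.H30.SF.GCZ

/-!
# MP_70ba79_ag, THEOREM S, part 3, row E_GCD
-/

set_option autoImplicit false

namespace Pool.Agent.H7.S2

open MvPolynomial SC
open Pool.Agent.H27.LV (ge deg poleOrder canDeg DegreeBound)
open Pool.Agent.H84.SM (cr dt dp)
open Pool.Agent.H84.SF
open Pool.Agent.H84.S2
open Pool.Agent.H30.SF (GCZ.smul_hom GCZ.scale GCZ.deg_lin GCZ.lin_hom GCZ.aeval_lin GCZ.lin_smul)

/-- the point in the coordinates in which `x j0 = 1` -/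
lemma crd {k K τ : Type} [Fintype τ] [Field k] [Field K] [Algebra k K]
    {I : Ideal (MvPolynomial τ k)} (hI : HId I) (G S : MvPolynomial τ k) (d m : ℕ)
    (hG : G.IsHomogeneous d) (x : τ → K) (Sp : Finset (DV k K)) (hxI : ∀ f ∈ I, aeval x f = 0)
    (hx : aeval x G ≠ 0)
    (hS : ∀ v, v ∉ Sp → ∃ j, x j ≠ 0 ∧ (∀ i, x i ≠ 0 → v.ord (x j) ≤ v.ord (x i)) ∧
      ((∃ (e : ℕ) (h : MvPolynomial τ k), h.IsHomogeneous e ∧ Van I G S h ∧ aeval x h ≠ 0 ∧
        v.ord (aeval x h) = e * v.ord (x j)) ∨ d * v.ord (x j) + m ≤ v.ord (aeval x G)))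
    (j0 : τ) (hj0 : x j0 ≠ 0) : CrD I G d S m (fun i => (x j0)⁻¹ * x i) Sp := by
  have hinv : (x j0)⁻¹ ≠ 0 := inv_ne_zero hj0
  refine ⟨GCZ.scale hI _ hxI, ⟨j0, inv_mul_cancel₀ hj0⟩, ?_, ?_⟩
  · rw [GCZ.smul_hom G d hG]
    exact mul_ne_zero (pow_ne_zero _ hinv) hx
  · intro v hv
    obtain ⟨j, hj, hmin, hord⟩ := hS v hv
    have hp : (poleOrder v (fun i => (x j0)⁻¹ * x i) : ℤ) = v.ord (x j0) - v.ord (x j) := by
      have hle : v.ord (x j) ≤ v.ord (x j0) := hmin j0 hj0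
      apply le_antisymm
      · obtain ⟨p, hp⟩ := Int.eq_ofNat_of_zero_le (sub_nonneg.2 hle)
        rw [hp]
        have : poleOrder v (fun i => (x j0)⁻¹ * x i) ≤ p := by
          refine Finset.sup_le fun i _ => ?_
          change (-(v.ord ((x j0)⁻¹ * x i))).toNat ≤ p
          by_cases hi : x i = 0
          · rw [hi, mul_zero, v.ord_zero]
            simp
          · rw [DV.ord_mul' v hinv hi, DV.ord_inv]
            have := hmin i hi
            omega
        exact_mod_cast this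
      · have h1 : (-(v.ord ((x j0)⁻¹ * x j))).toNat ≤
            poleOrder v (fun i => (x j0)⁻¹ * x i) :=
          Finset.le_sup (f := fun i => (-(v.ord ((x j0)⁻¹ * x i))).toNat) (Finset.mem_univ j)
        rw [DV.ord_mul' v hinv hj, DV.ord_inv] at h1
        omega
    rcases hord with ⟨e, h, he, hvan, hne, hh⟩ | h
    · left
      refine ⟨e, h, he, hvan, ?_, ?_⟩
      · rw [GCZ.smul_hom h e he]
        exact mul_ne_zero (pow_ne_zero _ hinv) hne
      · rw [GCZ.smul_hom h e he, DV.ord_mul' v (pow_ne_zero _ hinv) hne, DV.ord_pow, DV.ord_inv,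
          hp, hh]
        ring
    · right
      rw [GCZ.smul_hom G d hG, DV.ord_mul' v (pow_ne_zero _ hinv) hx, DV.ord_pow, DV.ord_inv, hp]
      linarith

theorem pf_GCD (hIMF : Pool.Agent.H84.SM.T_IMF) : T_GCD := by
  intro k τ _ _ _ _ I _ G SP d c hc hI hd hG hGI hsf
  obtain ⟨B, m, N, Ψ, hΨ0, hΨN, hB⟩ := hsf
  refine ⟨max (2 * B + 1) (N + d + 1), m, N + d, Ψ * G, ?_, hΨN.mul hG, ?_⟩
  · intro hmem
    rcases Ideal.IsPrime.mem_or_mem (inferInstance : I.IsPrime) hmem with h | h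
    · exact hΨ0 h
    · exact hGI h
  intro K _ _ _ htr D hD x S hxI hS
  have hB1 : ((2 * B + 1 : ℕ) : ℤ) ≤ ((max (2 * B + 1) (N + d + 1) : ℕ) : ℤ) := by
    exact_mod_cast le_max_left _ _
  have hB2 : ((N + d + 1 : ℕ) : ℤ) ≤ ((max (2 * B + 1) (N + d + 1) : ℕ) : ℤ) := by
    exact_mod_cast le_max_right _ _
  generalize ((max (2 * B + 1) (N + d + 1) : ℕ) : ℤ) = B' at hB1 hB2 ⊢
  push_cast at hB1 hB2
  have hd0 : (0 : ℤ) ≤ d := Int.natCast_nonneg _
  have hN0 : (0 : ℤ) ≤ N := Int.natCast_nonneg _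
  have hM1 : (1 : ℤ) ≤ max 1 (canDeg D + S.card) := le_max_left _ _
  by_cases hx : aeval x G = 0
  · refine ⟨⟨d, G, by nlinarith, hGI, hG, hx⟩, fun h => ?_⟩
    exact absurd (by rw [map_mul, hx, mul_zero]) h
  have hfun : ∀ j0, (fun i => x i / x j0) = fun i => (x j0)⁻¹ * x i := by
    intro j0
    funext i
    rw [div_eq_mul_inv, mul_comm]
  -- the part about the degree of the map
  have hb : aeval x Ψ ≠ 0 → (∃ i j, x j ≠ 0 ∧ x i / x j ∉ Set.range (algebraMap k K)) →
      ∀ j0, x j0 ≠ 0 → 1 ≤ canDeg D + (S.card : ℤ) ∧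
        (deg k (fun i => (x j0)⁻¹ * x i) : ℤ) ≤ B * (canDeg D + S.card) := by
    intro hΨ hex j0 hj0
    refine hB K htr D hD (fun i => (x j0)⁻¹ * x i) S
      (crd hI G SP d m hG x S hxI hx hS j0 hj0) ?_ ?_
    · rw [GCZ.smul_hom Ψ N hΨN]
      exact mul_ne_zero (pow_ne_zero _ (inv_ne_zero hj0)) hΨ
    · by_contra hcon
      push Not at hcon
      obtain ⟨i, j, hj, hij⟩ := hex
      obtain ⟨a, ha⟩ := hcon i
      obtain ⟨b, hb⟩ := hcon j
      apply hij
      refine ⟨a / b, ?_⟩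
      rw [map_div₀, ha, hb]
      exact mul_div_mul_left _ _ (inv_ne_zero hj0)
  refine ⟨?_, ?_⟩
  · have h0 : ∃ j, x j ≠ 0 := by
      by_contra h
      push Not at h
      apply hx
      have h1 : x = fun i => (0 : K) * x i := by
        funext i
        rw [h i, mul_zero]
      rw [h1, GCZ.smul_hom G d hG, zero_pow (by omega), zero_mul]
    obtain ⟨j0, hj0⟩ := h0
    have hM : (1 : ℤ) ≤ max 1 (canDeg D + S.card) := le_max_left _ _
    have hM' : canDeg D + (S.card : ℤ) ≤ max 1 (canDeg D + S.card) := le_max_right _ _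
    by_cases hΨ : aeval x Ψ = 0
    · refine ⟨N, Ψ, ?_, hΨ0, hΨN, hΨ⟩
      nlinarith
    -- a form in three variables gives a form
    have key : ∀ (e : ℕ) (Φ : MvPolynomial (Fin 3) k), Φ ≠ 0 → Φ.IsHomogeneous e →
        aeval (lin c x) Φ = 0 → (e : ℤ) ≤ B' * max 1 (canDeg D + S.card) →
        ∃ (e : ℕ) (Φ : MvPolynomial τ k), (e : ℤ) ≤ B' * max 1 (canDeg D + S.card) ∧ Φ ∉ I ∧
          Φ.IsHomogeneous e ∧ aeval x Φ = 0 := by
      intro e Φ hΦ0 hΦe hΦ he
      refine ⟨e, aeval (lin c X) Φ, he, hc Φ hΦ0, ?_, ?_⟩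
      · have h1 := hΦe.aeval (lin c (X : τ → MvPolynomial τ k)) (fun l => GCZ.lin_hom c l)
        rwa [one_mul] at h1
      · rw [GCZ.aeval_lin, hΦ]
    have hB'1 : (1 : ℤ) ≤ B' * max 1 (canDeg D + S.card) := by
      have hBn : (0 : ℤ) ≤ B := Int.natCast_nonneg _
      nlinarith
    by_cases hw : ∃ l0, lin c x l0 ≠ 0
    · obtain ⟨l0, hl0⟩ := hw
      by_cases hex : ∃ i j, x j ≠ 0 ∧ x i / x j ∉ Set.range (algebraMap k K)
      · obtain ⟨h1, h2⟩ := hb hΨ hex j0 hj0
        have hl0' : lin c (fun i => (x j0)⁻¹ * x i) l0 ≠ 0 := by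
          rw [GCZ.lin_smul]
          exact mul_ne_zero (inv_ne_zero hj0) hl0
        have hdeg := GCZ.deg_lin htr c (fun i => (x j0)⁻¹ * x i) l0 hl0'
        obtain ⟨e, Φ, he, hΦ0, hΦe, hΦ⟩ := hIMF k K htr
          (fun l => lin c (fun i => (x j0)⁻¹ * x i) l / lin c (fun i => (x j0)⁻¹ * x i) l0)
          ⟨l0, div_self hl0'⟩
        refine key e Φ hΦ0 hΦe ?_ ?_
        · have h3 : (fun l => lin c (fun i => (x j0)⁻¹ * x i) l /
              lin c (fun i => (x j0)⁻¹ * x i) l0) = fun l => (lin c x l0)⁻¹ * lin c x l := by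
            funext l
            rw [GCZ.lin_smul]
            simp only
            rw [mul_div_mul_left _ _ (inv_ne_zero hj0), div_eq_mul_inv, mul_comm]
          rw [h3, GCZ.smul_hom Φ e hΦe] at hΦ
          exact (mul_eq_zero.1 hΦ).resolve_left (pow_ne_zero _ (inv_ne_zero hl0))
        · have he' : (e : ℤ) ≤ 2 * (deg k (fun i => (x j0)⁻¹ * x i) : ℤ) + 1 := by
            have h4 : e ≤ 2 * deg k (fun i => (x j0)⁻¹ * x i) + 1 := by omega
            exact_mod_cast h4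
          nlinarith
      · push Not at hex
        choose a ha using fun i => hex i j0 hj0
        obtain ⟨b, hb2⟩ : ∃ b : Fin 3 → k, ∀ l, lin c x l = algebraMap k K (b l) * x j0 := by
          refine ⟨fun l => ∑ s, c l s * a s, fun l => ?_⟩
          unfold lin
          rw [map_sum, Finset.sum_mul]
          refine Finset.sum_congr rfl fun s _ => ?_
          rw [map_mul, ha s, Algebra.smul_def, mul_assoc, div_mul_cancel₀ _ hj0]
        have hbl0 : b l0 ≠ 0 := by
          intro h1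
          apply hl0
          rw [hb2 l0, h1, map_zero, zero_mul]
        obtain ⟨l1, hl1⟩ : ∃ l1 : Fin 3, l1 ≠ l0 := ⟨l0 + 1, by fin_cases l0 <;> decide⟩
        refine key 1 (C (b l0) * X l1 - C (b l1) * X l0) ?_ ?_ ?_ ?_
        · intro h
          have h3 := congrArg (eval (fun i => if i = l1 then (1 : k) else 0)) h
          simp only [map_sub, map_mul, eval_X, eval_C, if_true, if_neg hl1.symm, mul_zero,
            sub_zero, map_zero, mul_one] at h3
          exact hbl0 h3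
        · exact ((isHomogeneous_X k l1).C_mul _).sub ((isHomogeneous_X k l0).C_mul _)
        · rw [map_sub, map_mul, map_mul, aeval_X, aeval_X, aeval_C, aeval_C, hb2 l0, hb2 l1]
          ring
        · exact_mod_cast hB'1
    · push Not at hw
      refine key 1 (X 0) (X_ne_zero 0) (isHomogeneous_X k 0) ?_ ?_
      · rw [aeval_X, hw 0]
      · exact_mod_cast hB'1
  · intro hΨG hex
    have hΨ : aeval x Ψ ≠ 0 := by
      intro h
      apply hΨG
      rw [map_mul, h, zero_mul]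
    obtain ⟨_, j, hj, _⟩ := id hex
    have h1 := (hb hΨ hex j hj).1
    refine ⟨h1, fun j0 hj0 => ?_⟩
    rw [hfun j0]
    have h2 := (hb hΨ hex j0 hj0).2
    have hB0 : (0 : ℤ) ≤ B := Int.natCast_nonneg _
    nlinarith

end Pool.Agent.H7.S2
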