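import Pool.Agent.H84.S2.TgE
import Pool.Agent.H78.S2.MZV

/-!
# MP_70ba79_ag, THEOREM S, part 3, row E_NUJ
-/

set_option autoImplicit false

namespace Pool.Agent.H7.S2

open MvPolynomial SC
open Pool.Agent.H27.LV (ge deg poleOrder canDeg DegreeBound)
open Pool.Agent.H84.SM (cr dt dp)
open Pool.Agent.H84.SL (pd)
open Pool.Agent.H92.SF (Q2)
open Pool.Agent.H3.SF (Itg Bb BB Hm eu grd hes Sfc Crd Cnn Crf Prm nv Vl VQ evc FE E)
open Pool.Agent.H84.SF
open Pool.Agent.H3.S2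
open Pool.Agent.H84.S2
open Pool.Agent.H17.SD (Prj Smo HRel)

theorem pf_NUJ (hNUL : T_NUL) (hPOZ : T_POZ) (hPHI : Pool.Agent.H17.SD.T_PHI)
    (hVLI : Pool.Agent.H3.SF.T_VLI) : T_NUJ := by
  classical
  intro k F σ K _ _ _ _ _ _ _ _ X u θ dd J δ j0 c0 c hCone hS m GP sg SP hm hC hSP z hz hz1 hJ hG0
    hS0 v e h he hvan hh0 hord
  have hE : ∀ i, Hm k (eu u dd) 1 (X i) := fun i => by
    unfold Hm
    rw [hS.prj.Xeu i]
    push_cast
    ring
  have hH : HRel k X := by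
    intro f hf d
    have h0 : ∑ i ∈ Finset.range (f.totalDegree + 1), aeval X (homogeneousComponent i f) = 0 := by
      rw [← map_sum, sum_homogeneousComponent, hf]
    have hF : CharZero F := charZero_of_injective_algebraMap (algebraMap k F).injective
    by_cases hd : d ∈ Finset.range (f.totalDegree + 1)
    · exact Pool.Agent.H62.HIL.hm_sum_eq_zero (κ := k) (E := eu u dd)
        (Finset.range (f.totalDegree + 1)) (fun i => (i : ℤ))
        (fun a _ b _ hab => by simpa using hab) (fun i => aeval X (homogeneousComponent i f))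
        (fun e _ => Pool.Agent.H62.HIL.hm_aeval hE (homogeneousComponent_isHomogeneous e f)) h0 d hd
    · rw [homogeneousComponent_eq_zero, map_zero]
      simp only [Finset.mem_range] at hd
      omega
  obtain ⟨l0, hl0, hpo⟩ := hPOZ k F σ K X u dd c hS.sfc.du hS.prj.Xint hS.prj.Xeu hS.lin z hz hz1
  have hinv : (lin c z l0)⁻¹ ≠ 0 := inv_ne_zero hl0
  -- the scaled curve
  have hzs : ∀ f : MvPolynomial σ k, aeval X f = 0 →
      aeval (fun s => (lin c z l0)⁻¹ * z s) f = 0 :=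
    fun f hf => Pool.Agent.H26.SF.mxz_scale_zero X hH z hz _ f hf
  have hx : ∀ l, ∑ s, c l s • ((lin c z l0)⁻¹ * z s) = (lin c z l0)⁻¹ * lin c z l := by
    intro l
    unfold lin
    rw [Finset.mul_sum]
    refine Finset.sum_congr rfl fun s _ => ?_
    rw [mul_smul_comm]
  have hxJ : aeval (fun l => (lin c z l0)⁻¹ * lin c z l) J = (lin c z l0)⁻¹ ^ j0 * aeval (lin c z) J :=
    Pool.Agent.H26.SF.mxz_scale J j0 hS.sfc.Jh _ _
  have hJ1 : aeval (fun l => ∑ s, c l s • ((lin c z l0)⁻¹ * z s)) J ≠ 0 := by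
    simp only [hx]
    rw [hxJ]
    exact mul_ne_zero (pow_ne_zero _ hinv) hJ
  obtain ⟨φ, hφ⟩ := hPHI k F σ K X u θ dd J hS.sfc.ind hS.prj
    (fun s => (lin c z l0)⁻¹ * z s) hzs c hS.lin hJ1
  -- the values of the forms
  have hval : ∀ (P : MvPolynomial σ k) (b : Bb k u), (b : F) = aeval X P →
      φ b = aeval (fun s => (lin c z l0)⁻¹ * z s) P := by
    intro P b hb
    have hb2 : b = aeval (fun s => (⟨X s, hS.prj.Xint s⟩ : Bb k u)) P := by
      apply Subtype.ext
      rw [hb]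
      have := MvPolynomial.comp_aeval_apply (R := k) (fun s => (⟨X s, hS.prj.Xint s⟩ : Bb k u))
        (Bb k u).val P
      exact this.symm
    rw [hb2, MvPolynomial.comp_aeval_apply]
    congr 2
    funext s
    exact hφ s ⟨X s, hS.prj.Xint s⟩ rfl
  have hui : ∀ (i : Fin 3) (b : Bb k u), (b : F) = u i →
      φ b = (fun l => (lin c z l0)⁻¹ * lin c z l) i := by
    intro i b hb
    have hb2 : b = ∑ s, c i s • (⟨X s, hS.prj.Xint s⟩ : Bb k u) := by
      apply Subtype.ext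
      rw [hb, hS.lin i]
      simp
    rw [hb2, map_sum]
    show _ = (lin c z l0)⁻¹ * lin c z i
    rw [← hx i]
    refine Finset.sum_congr rfl fun s _ => ?_
    rw [map_smul, hφ s ⟨X s, hS.prj.Xint s⟩ rfl]
  -- forms are integral
  have hint : ∀ P : MvPolynomial σ k, Itg k u (aeval X P) := by
    intro P
    have h1 : aeval X P = ((aeval (fun s => (⟨X s, hS.prj.Xint s⟩ : Bb k u)) P : Bb k u) : F) := by
      have := MvPolynomial.comp_aeval_apply (R := k) (fun s => (⟨X s, hS.prj.Xint s⟩ : Bb k u))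
        (Bb k u).val P
      exact this.symm
    rw [h1]
    exact (aeval (fun s => (⟨X s, hS.prj.Xint s⟩ : Bb k u)) P).2
  have hr := hNUL k F σ X u θ dd J δ j0 c0 c hCone hS m GP hm hC SP h hvan
  set r : F := aeval X SP * aeval X h / aeval X GP with hrd
  have hrG : r * aeval X GP = aeval X SP * aeval X h := by
    rw [hrd, div_mul_cancel₀ _ hC.ne]
  set br : Bb k u := ⟨r, hr⟩ with hbr
  have hprod : br * ⟨aeval X GP, hint GP⟩ = ⟨aeval X SP, hint SP⟩ * ⟨aeval X h, hint h⟩ := by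
    apply Subtype.ext
    exact hrG
  have hφr : φ br * aeval (fun s => (lin c z l0)⁻¹ * z s) GP =
      aeval (fun s => (lin c z l0)⁻¹ * z s) SP * aeval (fun s => (lin c z l0)⁻¹ * z s) h := by
    have h1 := congrArg φ hprod
    rw [map_mul, map_mul, hval GP ⟨aeval X GP, hint GP⟩ rfl, hval SP ⟨aeval X SP, hint SP⟩ rfl,
      hval h ⟨aeval X h, hint h⟩ rfl] at h1
    exact h1
  have hsc : ∀ (P : MvPolynomial σ k) (d : ℕ), P.IsHomogeneous d →
      aeval (fun s => (lin c z l0)⁻¹ * z s) P = (lin c z l0)⁻¹ ^ d * aeval z P :=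
    fun P d hP => Pool.Agent.H26.SF.mxz_scale P d hP _ _
  rw [hsc GP m hC.hom, hsc SP sg hSP, hsc h e he] at hφr
  have hpn : ∀ d : ℕ, (lin c z l0)⁻¹ ^ d ≠ 0 := fun d => pow_ne_zero _ hinv
  have hbr0 : φ br ≠ 0 := by
    intro h0
    rw [h0, zero_mul] at hφr
    exact mul_ne_zero (mul_ne_zero (hpn sg) hS0) (mul_ne_zero (hpn e) hh0) hφr.symm
  -- homogeneity
  have hHr : Hm k (eu u dd) ((sg : ℤ) + e - m) r := by
    have a1 : Hm k (eu u dd) (sg : ℤ) (aeval X SP) := Pool.Agent.H62.HIL.hm_aeval hE hSP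
    have a2 : Hm k (eu u dd) (e : ℤ) (aeval X h) := Pool.Agent.H62.HIL.hm_aeval hE he
    have a3 : Hm k (eu u dd) (m : ℤ) (aeval X GP) := Pool.Agent.H62.HIL.hm_aeval hE hC.hom
    unfold Hm at a1 a2 a3 ⊢
    have a4 := congrArg (eu u dd) hrG
    rw [Derivation.leibniz, Derivation.leibniz, a1, a2, a3] at a4
    simp only [smul_eq_mul] at a4
    have a5 : eu u dd r * aeval X GP = (((sg : ℤ) + e - m : ℤ) : F) * r * aeval X GP := by
      push_cast
      push_cast at a4
      linear_combination a4 - ((sg : F) + e) * hrG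
    exact mul_right_cancel₀ hC.ne a5
  have hVl : Vl u φ r (φ br) := ⟨1, br, by rw [map_one]; exact one_ne_zero, by simp [hbr],
    by rw [map_one, one_mul]⟩
  have hnv := hVLI k F K u dd δ j0 c0 J hS.sfc φ (fun l => (lin c z l0)⁻¹ * lin c z l) hui
    ⟨l0, inv_mul_cancel₀ hl0⟩ v _ r (φ br) hr hHr hVl hbr0
  unfold nv at hnv
  have h3 : (fun l => (lin c z l0)⁻¹ * lin c z l) = fun l => lin c z l / lin c z l0 := by
    funext l
    rw [div_eq_mul_inv, mul_comm]
  rw [h3, hpo v] at hnv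
  have h4 := congrArg v.ord hφr
  rw [v.ord_mul _ _ hbr0 (mul_ne_zero (hpn m) hG0), v.ord_mul _ _ (hpn m) hG0,
    v.ord_mul _ _ (mul_ne_zero (hpn sg) hS0) (mul_ne_zero (hpn e) hh0),
    v.ord_mul _ _ (hpn sg) hS0, v.ord_mul _ _ (hpn e) hh0,
    Pool.Agent.H26.SF.mxz_ord_pow v _ hinv, Pool.Agent.H26.SF.mxz_ord_pow v _ hinv,
    Pool.Agent.H26.SF.mxz_ord_pow v _ hinv, Pool.Agent.H26.SF.mxz_ord_inv v _ hl0, hord] at h4
  nlinarith

end Pool.Agent.H7.S2
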